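import Mathlib
import Pool.Agent.J4H59.PJ.Jobs

set_option autoImplicit false

/-! Job SHIFT for helper59 (row MP_6a95c2_gt). -/

namespace Pool.Agent.J4H51.PJ

open SimpleGraph Function

/-- if `x` is nearer to `a` than to `c` and `y` nearer to `c` than to `a`, the geodesic from `x` to
`y` passes through the edge `a c` -/
theorem through {V : Type} {T : SimpleGraph V} (hT : T.IsTree) {a c x y : V} (h : T.Adj a c)
    (hx : T.dist x c = T.dist x a + 1) (hy : T.dist y a = T.dist y c + 1) :
    T.dist x y = T.dist x a + 1 + T.dist c y := by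
  classical
  have hconn : T.Connected := hT.1
  -- a geodesic from `z` to the nearer end avoids the edge
  have avoid : ∀ (z u v : V), T.Adj u v → T.dist z v = T.dist z u + 1 →
      (T.deleteEdges {s(u, v)}).Reachable z u := by
    intro z u v _ hz
    obtain ⟨p, hp⟩ := hconn.exists_walk_length_eq_dist z u
    have hv : v ∉ p.support := by
      intro hv
      have h1 : T.dist z v ≤ (p.takeUntil v hv).length := dist_le _
      have h2 := p.length_takeUntil_le hv
      omega
    have he : ∀ e ∈ p.edges, e ∉ ({s(u, v)} : Set (Sym2 V)) := by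
      intro e he h1
      rw [Set.mem_singleton_iff] at h1
      subst h1
      exact hv (p.snd_mem_support_of_mem_edges he)
    exact ⟨p.toDeleteEdges _ he⟩
  have hxa := avoid x a c h hx
  have hyc : (T.deleteEdges {s(a, c)}).Reachable y c := by
    have := avoid y c a h.symm hy
    rwa [Sym2.eq_swap] at this
  obtain ⟨w, hw⟩ := hconn.exists_walk_length_eq_dist x y
  have hmem : s(a, c) ∈ w.edges := by
    by_contra hn
    have hr : (T.deleteEdges {s(a, c)}).Reachable x y :=
      ⟨w.toDeleteEdges _ (by
        intro e he h1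
        rw [Set.mem_singleton_iff] at h1
        subst h1
        exact hn he)⟩
    have hb := (isAcyclic_iff_forall_adj_isBridge.1 hT.isAcyclic) h
    rw [isBridge_iff] at hb
    exact hb ((hxa.symm.trans hr).trans hyc)
  have ha : a ∈ w.support := w.fst_mem_support_of_mem_edges hmem
  have h1 : T.dist x a ≤ (w.takeUntil a ha).length := dist_le _
  have h2 : T.dist a y ≤ (w.dropUntil a ha).length := dist_le _
  have h3 : (w.takeUntil a ha).length + (w.dropUntil a ha).length = w.length := by
    rw [← Walk.length_append, Walk.take_spec]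
  have h4 : T.dist a y = T.dist y c + 1 := by rw [dist_comm, hy]
  have h5 : T.dist x y ≤ T.dist x a + T.dist a y := hconn.dist_triangle
  have h6 : T.dist c y = T.dist y c := dist_comm
  omega

theorem isom {V : Type} {T : SimpleGraph V} (hT : T.IsTree) {H : Type} [Group H] [MulAction H V]
    (hadj : ∀ (h : H) (x y : V), T.Adj x y → T.Adj (h • x) (h • y)) (h : H) (x y : V) :
    T.dist (h • x) (h • y) = T.dist x y := by
  have key : ∀ (g : H) (u v : V), T.dist (g • u) (g • v) ≤ T.dist u v := by
    intro g u v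
    obtain ⟨p, hp⟩ := hT.1.exists_walk_length_eq_dist u v
    let f : T →g T := ⟨fun z => g • z, fun {a b} hab => hadj g a b hab⟩
    have h1 : T.dist (f u) (f v) ≤ (p.map f).length := dist_le _
    rw [Walk.length_map, hp] at h1
    exact h1
  refine le_antisymm (key h x y) ?_
  have := key h⁻¹ (h • x) (h • y)
  rwa [inv_smul_smul, inv_smul_smul] at this

theorem shift : Pool.Agent.J4H59.PJ.ShiftStatement := by
  intro V T hT H _ _ hadj v₀ v₁ h s s' hs hs'
  have iso := isom hT hadj
  have tri : ∀ x y z : V, T.dist x z ≤ T.dist x y + T.dist y z := fun x y z => hT.1.dist_triangle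
  have d1 : T.dist v₀ v₁ = 1 := dist_eq_one_iff_adj.2 h
  have aux : ∀ t : H, T.dist v₀ (t • v₁) = T.dist v₁ (t • v₀) + 2 →
      T.dist v₀ (t • v₀) = T.dist v₁ (t • v₀) + 1 ∧ T.dist v₁ (t • v₁) = T.dist v₁ (t • v₀) + 1 := by
    intro t ht
    have e1 : T.dist (t • v₀) (t • v₁) = 1 := by rw [iso, d1]
    have e2 := tri v₀ v₁ (t • v₀)
    have e3 := tri v₀ (t • v₀) (t • v₁)
    have e4 := tri v₁ (t • v₀) (t • v₁)
    have e5 := tri v₀ v₁ (t • v₁)
    omega
  obtain ⟨a1, a2⟩ := aux s hs
  obtain ⟨b1, b2⟩ := aux s' hs'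
  have hadj' : T.Adj (s • v₀) (s • v₁) := hadj s _ _ h
  have c1 : ∀ x y : V, T.dist (s • x) ((s * s') • y) = T.dist x (s' • y) := by
    intro x y
    rw [mul_smul, iso]
  -- `v₀`, `v₁` are on the side of `s • v₀`, and `(s * s') • v₀`, `(s * s') • v₁` on the other side
  have x0 : T.dist v₀ (s • v₁) = T.dist v₀ (s • v₀) + 1 := by omega
  have x1 : T.dist v₁ (s • v₁) = T.dist v₁ (s • v₀) + 1 := by omega
  have y0 : T.dist ((s * s') • v₀) (s • v₀) = T.dist ((s * s') • v₀) (s • v₁) + 1 := by
    rw [dist_comm, c1, dist_comm (u := (s * s') • v₀), c1]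
    omega
  have y1 : T.dist ((s * s') • v₁) (s • v₀) = T.dist ((s * s') • v₁) (s • v₁) + 1 := by
    rw [dist_comm, c1, dist_comm (u := (s * s') • v₁), c1]
    omega
  have f01 := through hT hadj' x0 y1
  have f00 := through hT hadj' x0 y0
  have f10 := through hT hadj' x1 y0
  rw [c1] at f01 f00 f10
  omega

end Pool.Agent.J4H51.PJ
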