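import Mathlib
import Pool.Agent.J4H59.PJ.Jobs

set_option autoImplicit false

/-! Job TREE for helper59 (row MP_6a95c2_gt). -/

namespace Pool.Agent.J4H51.PJ

open SimpleGraph Function

open Classical in
/-- the indicator of the side of `c` in the tree without the edge `a c` -/
noncomputable def sd {V : Type} (T : SimpleGraph V) (a c x : V) : ℤ :=
  if (T.deleteEdges {s(a, c)}).Reachable c x then 1 else 0

theorem sd_same {V : Type} {T : SimpleGraph V} {a c x y : V} (h : T.Adj x y)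
    (hne : s(x, y) ≠ s(a, c)) : sd T a c y = sd T a c x := by
  have h1 : (T.deleteEdges {s(a, c)}).Adj x y := by
    rw [deleteEdges_adj]
    exact ⟨h, hne⟩
  unfold sd
  by_cases h2 : (T.deleteEdges {s(a, c)}).Reachable c x
  · rw [if_pos h2, if_pos (h2.trans h1.reachable)]
  · rw [if_neg h2, if_neg]
    intro h3
    exact h2 (h3.trans h1.symm.reachable)

theorem sd_end {V : Type} (T : SimpleGraph V) (a c : V) : sd T a c c = 1 :=
  if_pos (Reachable.refl c)

theorem sd_start {V : Type} {T : SimpleGraph V} (hT : T.IsTree) {a c : V} (h : T.Adj a c) :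
    sd T a c a = 0 := by
  unfold sd
  rw [if_neg]
  intro h1
  have h2 := (isAcyclic_iff_forall_adj_isBridge.1 hT.isAcyclic) h
  rw [isBridge_iff] at h2
  exact h2 h1.symm

/-- the directed edges -/
def E {V : Type} (T : SimpleGraph V) : Type := {p : V × V // T.Adj p.1 p.2}

/-- the edges `p` and `p'` are in one orbit -/
def Rel {V : Type} (T : SimpleGraph V) (B : Type) [Group B] [MulAction B V] (p p' : E T) : Prop :=
  ∃ b : B, (b • p.1.1 = p'.1.1 ∧ b • p.1.2 = p'.1.2) ∨ (b • p.1.1 = p'.1.2 ∧ b • p.1.2 = p'.1.1)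

/-- orbits of undirected edges -/
def st {V : Type} (T : SimpleGraph V) (B : Type) [Group B] [MulAction B V] : Setoid (E T) where
  r := Rel T B
  iseqv := by
    refine ⟨fun p => ⟨1, Or.inl ⟨one_smul _ _, one_smul _ _⟩⟩, ?_, ?_⟩
    · rintro p p' ⟨b, h | h⟩
      · refine ⟨b⁻¹, Or.inl ⟨?_, ?_⟩⟩
        · rw [← h.1, inv_smul_smul]
        · rw [← h.2, inv_smul_smul]
      · refine ⟨b⁻¹, Or.inr ⟨?_, ?_⟩⟩
        · rw [← h.2, inv_smul_smul]
        · rw [← h.1, inv_smul_smul]
    · rintro p p' p'' ⟨b, h⟩ ⟨b', h'⟩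
      refine ⟨b' * b, ?_⟩
      rw [mul_smul, mul_smul]
      rcases h with h | h <;> rcases h' with h' | h' <;> rw [h.1, h.2, h'.1, h'.2] <;> simp

theorem tree_data : Pool.Agent.J4H59.PJ.TreeStatement := by
  intro V T hT B _ _ hadj hfree hinv
  let J : Type := Quotient (st T B)
  let a : J → V := fun j => j.out.1.1
  let c : J → V := fun j => j.out.1.2
  have hac : ∀ j : J, T.Adj (a j) (c j) := fun j => j.out.2
  let σ : J → V → ℤ := fun j x => sd T (a j) (c j) x
  -- the edges and their labels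
  have key : ∀ x y : V, T.Adj x y → ∃ q₀ : J × B,
      ((q₀.2⁻¹ • x = a q₀.1 ∧ q₀.2⁻¹ • y = c q₀.1) ∨ (q₀.2⁻¹ • y = a q₀.1 ∧ q₀.2⁻¹ • x = c q₀.1)) ∧
      ∀ q : J × B, s(q.2⁻¹ • x, q.2⁻¹ • y) = s(a q.1, c q.1) → q = q₀ := by
    intro x y hxy
    let p : E T := ⟨(x, y), hxy⟩
    have hrel : Rel T B (Quotient.out (⟦p⟧ : J)) p := Quotient.mk_out (s := st T B) p
    obtain ⟨b, hb⟩ := hrel
    refine ⟨(⟦p⟧, b), ?_, ?_⟩
    · rcases hb with hb | hb
      · left
        exact ⟨by rw [← show b • a ⟦p⟧ = x from hb.1, inv_smul_smul],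
          by rw [← show b • c ⟦p⟧ = y from hb.2, inv_smul_smul]⟩
      · right
        exact ⟨by rw [← show b • a ⟦p⟧ = y from hb.1, inv_smul_smul],
          by rw [← show b • c ⟦p⟧ = x from hb.2, inv_smul_smul]⟩
    · rintro ⟨j, b'⟩ hq
      have hq' : (b' • a j = x ∧ b' • c j = y) ∨ (b' • a j = y ∧ b' • c j = x) := by
        rw [Sym2.eq_iff] at hq
        rcases hq with hq | hq
        · left
          exact ⟨by rw [← hq.1, smul_inv_smul], by rw [← hq.2, smul_inv_smul]⟩
        · right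
          exact ⟨by rw [← hq.2, smul_inv_smul], by rw [← hq.1, smul_inv_smul]⟩
      have hj : j = ⟦p⟧ := by
        rw [← Quotient.out_eq j]
        exact Quotient.sound (s := st T B) ⟨b', hq'⟩
      subst hj
      have hb' : (b • a ⟦p⟧ = x ∧ b • c ⟦p⟧ = y) ∨ (b • a ⟦p⟧ = y ∧ b • c ⟦p⟧ = x) := hb
      have hbb : b'⁻¹ * b = 1 := by
        rcases hb' with h1 | h1 <;> rcases hq' with h2 | h2
        · apply hfree _ (a ⟦p⟧)
          rw [mul_smul, h1.1, ← h2.1, inv_smul_smul]
        · exfalso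
          apply hinv (b'⁻¹ * b) (a ⟦p⟧) (c ⟦p⟧) (hac _)
          · rw [mul_smul, h1.1, ← h2.2, inv_smul_smul]
          · rw [mul_smul, h1.2, ← h2.1, inv_smul_smul]
        · exfalso
          apply hinv (b'⁻¹ * b) (a ⟦p⟧) (c ⟦p⟧) (hac _)
          · rw [mul_smul, h1.1, ← h2.2, inv_smul_smul]
          · rw [mul_smul, h1.2, ← h2.1, inv_smul_smul]
        · apply hfree _ (a ⟦p⟧)
          rw [mul_smul, h1.1, ← h2.1, inv_smul_smul]
      rw [inv_mul_eq_one] at hbb
      rw [hbb]
  have hinvadj : ∀ (b : B) (x y : V), T.Adj x y → T.Adj (b⁻¹ • x) (b⁻¹ • y) :=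
    fun b x y h => hadj _ _ _ h
  -- adjacent vertices
  have step0 : ∀ x y : V, T.Adj x y → ∀ q : J × B, s(q.2⁻¹ • x, q.2⁻¹ • y) ≠ s(a q.1, c q.1) →
      σ q.1 (q.2⁻¹ • y) = σ q.1 (q.2⁻¹ • x) := by
    intro x y hxy q hq
    exact sd_same (hinvadj q.2 x y hxy) hq
  refine ⟨J, a, c, σ, ?_⟩
  have main : ∀ x y : V, T.Walk x y →
      ({q : J × B | σ q.1 (q.2⁻¹ • y) ≠ σ q.1 (q.2⁻¹ • x)}.Finite) ∧
      ∀ (M : Type) [AddCommGroup M] (f : V → M),
        ∑ᶠ q : J × B, (σ q.1 (q.2⁻¹ • y) - σ q.1 (q.2⁻¹ • x)) •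
          (f (q.2 • c q.1) - f (q.2 • a q.1)) = f y - f x := by
    intro x y w
    induction w with
    | nil => simp
    | @cons x u y h w ih =>
      obtain ⟨q₀, h0, h1⟩ := key x u h
      have hz : ∀ q : J × B, q ≠ q₀ → σ q.1 (q.2⁻¹ • u) = σ q.1 (q.2⁻¹ • x) := by
        intro q hq
        exact step0 x u h q (fun e => hq (h1 q e))
      have hfin : {q : J × B | σ q.1 (q.2⁻¹ • u) ≠ σ q.1 (q.2⁻¹ • x)}.Finite := by
        refine (Set.finite_singleton q₀).subset ?_
        intro q hq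
        by_contra h2
        exact hq (hz q h2)
      refine ⟨(hfin.union ih.1).subset ?_, ?_⟩
      · intro q hq
        by_contra h2
        rw [Set.mem_union, not_or] at h2
        simp only [Set.mem_setOf_eq, not_not] at h2
        exact hq (h2.2.trans h2.1)
      · intro M _ f
        have e1 : ∀ q : J × B, (σ q.1 (q.2⁻¹ • y) - σ q.1 (q.2⁻¹ • x)) •
            (f (q.2 • c q.1) - f (q.2 • a q.1)) =
            (σ q.1 (q.2⁻¹ • u) - σ q.1 (q.2⁻¹ • x)) • (f (q.2 • c q.1) - f (q.2 • a q.1)) +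
            (σ q.1 (q.2⁻¹ • y) - σ q.1 (q.2⁻¹ • u)) • (f (q.2 • c q.1) - f (q.2 • a q.1)) := by
          intro q
          rw [← add_smul]
          congr 1
          ring
        rw [finsum_congr e1, finsum_add_distrib, ih.2 M f]
        · have e2 : ∑ᶠ q : J × B, (σ q.1 (q.2⁻¹ • u) - σ q.1 (q.2⁻¹ • x)) •
              (f (q.2 • c q.1) - f (q.2 • a q.1)) = f u - f x := by
            rw [finsum_eq_single _ q₀ (fun q hq => by rw [hz q hq, sub_self, zero_smul])]
            rcases h0 with h0 | h0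
            · have h3 : σ q₀.1 (q₀.2⁻¹ • u) = 1 := by
                rw [h0.2]; exact sd_end T _ _
              have h4 : σ q₀.1 (q₀.2⁻¹ • x) = 0 := by
                rw [h0.1]; exact sd_start hT (hac _)
              rw [h3, h4, ← h0.1, ← h0.2, smul_inv_smul, smul_inv_smul]
              simp
            · have h3 : σ q₀.1 (q₀.2⁻¹ • x) = 1 := by
                rw [h0.2]; exact sd_end T _ _
              have h4 : σ q₀.1 (q₀.2⁻¹ • u) = 0 := by
                rw [h0.1]; exact sd_start hT (hac _)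
              rw [h3, h4, ← h0.1, ← h0.2, smul_inv_smul, smul_inv_smul]
              simp
          rw [e2]
          abel
        · refine hfin.subset ?_
          intro q hq hq2
          apply hq
          change (σ q.1 (q.2⁻¹ • u) - σ q.1 (q.2⁻¹ • x)) • (f (q.2 • c q.1) - f (q.2 • a q.1)) = 0
          rw [hq2, sub_self, zero_smul]
        · refine ih.1.subset ?_
          intro q hq hq2
          apply hq
          change (σ q.1 (q.2⁻¹ • y) - σ q.1 (q.2⁻¹ • u)) • (f (q.2 • c q.1) - f (q.2 • a q.1)) = 0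
          rw [hq2, sub_self, zero_smul]
  refine ⟨fun x y => ?_, fun M _ f x y => ?_⟩
  · obtain ⟨w⟩ := hT.1.preconnected x y
    exact (main x y w).1
  · obtain ⟨w⟩ := hT.1.preconnected x y
    exact (main x y w).2 M f

end Pool.Agent.J4H51.PJ
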